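import Pool.Agent.GBS.Stmts

/-!
# GBS, row FAM: a smooth family of cylinder metrics gives `TData`
-/

noncomputable section

open scoped ContDiff Topology RealInnerProductSpace
open Set MeasureTheory Matrix

namespace Pool.Agent.GBS.H60

open Pool.Agent.RF Pool.Agent.MVS Pool.Agent.GBS

theorem fam (cal : CalStatement) (sdd : SddStatement) (cmp : CmpStatement)
    (fsm : FsmStatement) : FamStatement := by
  intro H hH
  obtain ⟨hUo, -, -, -, -, -, -, -, -, -, -, -, hsl⟩ := cal
  obtain ⟨sg, sΓ⟩ := fsm H hH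
  have hx : ∀ z ∈ UZ, z.2 ∈ Om (Fin 5) := fun z hz => hz.2
  have hc : ∀ z ∈ UZ, _ := fun z hz => cmp (H z.1) (hH.cyl z.1) z.2 (hx z hz)
  have hdet : ∀ z ∈ UZ, 0 < (gm (H z.1 z.2)).det := fun z hz => (hc z hz).2.1
  obtain ⟨sh, sw, hdw⟩ := sdd (fun z => gm (H z.1 z.2)) sg hdet
  have hR : ∀ z ∈ UZ, ∀ i j,
      RZ (fun i z => Gam (H z.1) z.2 i) i j z = Rm (H z.1) z.2 i j := by
    intro z hz i j
    ext a b
    rw [(hc z hz).2.2.2.2.1 i j a b]
    have e1 := (hsl _ (sΓ j a b) z.1).2 z.2 (hx z hz) (eb i)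
    have e2 := (hsl _ (sΓ i a b) z.1).2 z.2 (hx z hz) (eb j)
    simp only at e1 e2
    rw [e1, e2]
    simp only [RZ, dM, vx, Matrix.add_apply, Matrix.sub_apply, Matrix.of_apply]
  have hS : ∀ z ∈ UZ, ∀ i j,
      SZ (fun i z => Gam (H z.1) z.2 i) (fun z => (gm (H z.1 z.2))⁻¹) i j z
        = Sm (H z.1) z.2 i j := by
    intro z hz i j
    simp only [SZ, Sm, hR z hz i j]
  refine ⟨?_, hR, ?_⟩
  · refine ⟨sg, sh, sΓ, sw, fun z hz => (hc z hz).1, ?_, ?_, fun z hz => (hc z hz).2.2.2.1, ?_,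
      hdw, ?_⟩
    · intro z hz
      exact Matrix.mul_nonsing_inv _ (isUnit_iff_ne_zero.mpr (hdet z hz).ne')
    · intro z hz i
      ext a b
      have e1 := (hsl _ (sg a b) z.1).2 z.2 (hx z hz) (eb i)
      have e2 := (hc z hz).2.2.1 i a b
      simp only at e1
      rw [e1] at e2
      simpa only [dM, vx, Matrix.of_apply] using e2
    · intro z hz
      ext a
      have hd : ∀ b, HasDerivAt (fun s : ℝ => gm (H (z.1 + s) z.2) a b * cf z.2 b)
          (dr vt (fun y => gm (H y.1 y.2) a b) z * cf z.2 b) 0 := by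
        intro b
        have h1 : DifferentiableAt ℝ (fun y : Z => gm (H y.1 y.2) a b) z :=
          ((sg a b).contDiffAt (hUo.mem_nhds hz)).differentiableAt (by simp)
        have h2 : HasDerivAt (fun s : ℝ => ((z.1 + s, z.2) : Z)) vt 0 := by
          have := ((hasDerivAt_id (0 : ℝ)).const_add z.1).prodMk (hasDerivAt_const (0 : ℝ) z.2)
          simpa [vt] using this
        have h3 : HasFDerivAt (fun y : Z => gm (H y.1 y.2) a b)
            (fderiv ℝ (fun y : Z => gm (H y.1 y.2) a b) z) ((z.1 + 0, z.2) : Z) := by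
          have : ((z.1 + 0, z.2) : Z) = z := by simp
          rw [this]
          exact h1.hasFDerivAt
        exact (h3.comp_hasDerivAt (0 : ℝ) h2).mul_const _
      have hs := HasDerivAt.fun_sum (u := Finset.univ) (fun b _ => hd b)
      have hconst : (fun s : ℝ => ∑ b, gm (H (z.1 + s) z.2) a b * cf z.2 b)
          = fun _ => ((‖z.2‖ ^ 2)⁻¹ • cf z.2) a := by
        funext s
        have := congrFun (cmp (H (z.1 + s)) (hH.cyl _) z.2 (hx z hz)).2.2.2.2.2.2 a
        simpa [Matrix.mulVec, dotProduct] using this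
      rw [hconst] at hs
      have h0 := hs.unique (hasDerivAt_const (0 : ℝ) _)
      simpa [Matrix.mulVec, dotProduct, dM] using h0
    · intro z hz i j
      rw [hS z hz i j]
      exact (hc z hz).2.2.2.2.2.1 i j
  · intro z hz
    have hS' : ∀ i j, SZ (fun i z => Gam (H z.1) z.2 i) (fun z => (gm (H z.1 z.2))⁻¹) i j z
        = Sm (H z.1) z.2 i j := hS z hz
    simp only [eul, EZ, hS']

end Pool.Agent.GBS.H60
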