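import Pool.Agent.GBS.StmtsB
import Pool.Agent.Helper9_RF.Sym
import Pool.Agent.Helper36_RF.Chr

/-!
# GBS, row ACT: the symmetries of the curvature components
-/

noncomputable section

open scoped ContDiff Topology RealInnerProductSpace
open Set MeasureTheory Matrix

namespace Pool.Agent.GBS.H60

open Pool.Agent.RF Pool.Agent.MVS Pool.Agent.GBS

theorem act : ActStmt := by
  intro G x F hG hx
  obtain ⟨h1, h2, h3, h4, -, -⟩ :=
    Pool.Agent.RF.H9.sym Pool.Agent.RF.chrStatement (Fin 5) G (Om (Fin 5)) hG.metric x hx
  refine ⟨?_, ?_, ?_, ?_⟩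
  · intro a b c d
    simp only [Kf]
    rw [h1, map_neg]
    rfl
  · intro a b c d
    exact h3 _ _ _ _
  · intro a b c d
    exact h4 _ _ _ _
  · intro a b c d
    simp only [Kf]
    have h := congrArg (fun v => G x v (F d)) (h2 (F a) (F b) (F c))
    simpa only [map_add, map_zero, ContinuousLinearMap.add_apply,
      ContinuousLinearMap.zero_apply] using h

end Pool.Agent.GBS.H60
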